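import Pool.Agent.D0H23.PP.Bc2
import Pool.Agent.D0H23.PP.Stm3

/-!
# Module BC3 of PP: Borel-Cantelli, relative to the number of the values (adapted from `Pool.Agent.D0H23.PP.Bc2`)
-/

set_option autoImplicit false

open Finset Filter MeasureTheory ProbabilityTheory

namespace Pool.Agent.D0H76.PP

open Pool.Agent.D0H23.PP
open Pool.Agent.D0H35.PP (six_le term_le)

/-- the asymptotic inequality, uniformly in the number `V` of rounds -/
lemma asym3 {e d : ℝ} (he : 0 < e) (hd : 0 ≤ d) :
    ∀ᶠ x : ℝ in atTop, ∀ V W : ℝ, 1 ≤ V → V * x ^ e ≤ W →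
      (V + 1) * Real.log (8 * x + 1) + x ^ (-d : ℝ) * (V + 1) + 2 * Real.log x ≤ W := by
  filter_upwards [six_le (a := e / 2) (b := e) (by linarith), log_le2 (c := e / 2) (by linarith),
    eventually_ge_atTop 1] with x h6 hl hx1 V W hV hW
  have hx0 : 0 < x := by linarith
  have e2 : 1 ≤ x ^ (e / 2) := Real.one_le_rpow hx1 (by linarith)
  have e3 : x ^ (-d : ℝ) ≤ 1 := Real.rpow_le_one_of_one_le_of_nonpos hx1 (by linarith)
  have e6 : 0 ≤ Real.log (8 * x + 1) := Real.log_nonneg (by linarith)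
  have t1 : (V + 1) * Real.log (8 * x + 1) ≤ 2 * (V * x ^ (e / 2)) := by
    calc (V + 1) * Real.log (8 * x + 1) ≤ (2 * V) * x ^ (e / 2) :=
          mul_le_mul (by linarith) hl.1 e6 (by linarith)
      _ = _ := by ring
  have t2 : x ^ (-d : ℝ) * (V + 1) ≤ 2 * (V * x ^ (e / 2)) := by
    calc x ^ (-d : ℝ) * (V + 1) ≤ 1 * (2 * V) :=
          mul_le_mul e3 (by linarith) (by linarith) (by norm_num)
      _ = 2 * (V * 1) := by ring
      _ ≤ _ := by gcongr
  have t3 : 2 * Real.log x ≤ 2 * (V * x ^ (e / 2)) := by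
    have : Real.log x ≤ V * x ^ (e / 2) := by
      calc Real.log x ≤ x ^ (e / 2) := hl.2
        _ = 1 * x ^ (e / 2) := (one_mul _).symm
        _ ≤ _ := by gcongr
    linarith
  have t4 : V * (6 * x ^ (e / 2)) ≤ V * x ^ e := mul_le_mul_of_nonneg_left h6 (by linarith)
  linarith

theorem t_BC3 : S_TWO → S_BC3 := by
  intro hTWO a b e hb0 he0 hpos Ω _ μ _ Y hm hind C C' M hdisj hyp
  classical
  set A : ℕ → Set Ω := fun n => {ω | Odd n ∧
    ((hit2 (C n) (C' n) (M n) (fun k => Y k ω)).card : ℝ) <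
      ((M n).card : ℝ) * (n : ℝ) ^ (-(2 * b) - 2 * e : ℝ)} with hA
  have hcast : Tendsto (fun n : ℕ => (n : ℝ)) atTop atTop := tendsto_natCast_atTop_atTop
  have q1 := hcast.eventually (asym3 (e := e) (d := b) he0 hb0.le)
  have q3 := hcast.eventually (six_le (a := -b - e) (b := 0) (by linarith))
  have hbound : ∀ᶠ n : ℕ in atTop, μ.real (A n) ≤ 2 * (1 / (n : ℝ) ^ 2) := by
    filter_upwards [hyp, q1, q3, eventually_ge_atTop 1] with n hn p1 p3 hn1
    by_cases hodd : Odd n
    · obtain ⟨m1, m2, m3⟩ := hn hodd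
      have hx : (1 : ℝ) ≤ n := by exact_mod_cast hn1
      have hx0 : (0 : ℝ) < n := by linarith
      have hm2 : ((M n).card : ℝ) ≤ 8 * (n : ℝ) := by exact_mod_cast m2
      set x : ℝ := (n : ℝ) with hxdef
      obtain ⟨K, hK⟩ : ∃ K : ℝ, K = ((M n).card : ℝ) := ⟨_, rfl⟩
      have hK0 : 0 ≤ K := by rw [hK]; exact Nat.cast_nonneg _
      set l : ℝ := x ^ (-b : ℝ) with hl
      have hl0 : 0 ≤ l := Real.rpow_nonneg hx0.le _
      obtain ⟨Vs, hVs⟩ : ∃ V : ℝ, V = K * x ^ (-b - e : ℝ) := ⟨_, rfl⟩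
      obtain ⟨Vr, hVr⟩ : ∃ V : ℝ, V = K * x ^ (-(2 * b) - 2 * e : ℝ) := ⟨_, rfl⟩
      have hKa : x ^ a ≤ K := by rw [hK]; exact m1
      have h14 : 1 ≤ Vs := by
        have h1 : x ^ (a - b - e : ℝ) = x ^ a * x ^ (-b - e : ℝ) := by
          rw [← Real.rpow_add hx0]
          congr 1
          ring
        have h2 : 1 ≤ x ^ (a - b - e : ℝ) := Real.one_le_rpow hx (by linarith)
        rw [hVs]
        rw [h1] at h2
        exact h2.trans (mul_le_mul_of_nonneg_right hKa (Real.rpow_nonneg hx0.le _))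
      have h15 : 1 ≤ Vr := by
        have h1 : x ^ (a - 2 * b - 2 * e : ℝ) = x ^ a * x ^ (-(2 * b) - 2 * e : ℝ) := by
          rw [← Real.rpow_add hx0]
          congr 1
          ring
        have h2 : 1 ≤ x ^ (a - 2 * b - 2 * e : ℝ) := Real.one_le_rpow hx (by linarith)
        rw [hVr]
        rw [h1] at h2
        exact h2.trans (mul_le_mul_of_nonneg_right hKa (Real.rpow_nonneg hx0.le _))
      set s : ℕ := ⌈Vs⌉₊ with hs
      set r : ℕ := ⌈Vr⌉₊ with hr
      have hs1 : Vs ≤ s := Nat.le_ceil _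
      have hs2 : (s : ℝ) ≤ Vs + 1 := (Nat.ceil_lt_add_one (by linarith)).le
      have hr1 : Vr ≤ r := Nat.le_ceil _
      have hr2 : (r : ℝ) ≤ Vr + 1 := (Nat.ceil_lt_add_one (by linarith)).le
      have hrs : r ≤ s := by
        apply Nat.ceil_le_ceil
        rw [hVs, hVr]
        exact mul_le_mul_of_nonneg_left (Real.rpow_le_rpow_of_exponent_le hx (by linarith)) hK0
      have hsM : s ≤ (M n).card := by
        have h1 : 6 * x ^ (-b - e : ℝ) ≤ 1 := by
          rw [Real.rpow_zero] at p3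
          exact p3
        have h2 : K * (6 * x ^ (-b - e : ℝ)) ≤ K * 1 := mul_le_mul_of_nonneg_left h1 hK0
        have : (s : ℝ) ≤ (M n).card := by
          rw [← hK]
          linarith
        exact_mod_cast this
      have hT := hTWO Ω μ Y hm hind (C n) (C' n) (M n) l hl0 (hdisj n) m3 r s hrs hsM
      have hsub : A n ⊆ {ω | (hit2 (C n) (C' n) (M n) (fun k => Y k ω)).card < r} := by
        rintro ω ⟨-, hω⟩
        rw [← hK, ← hxdef, ← hVr] at hω
        have : ((hit2 (C n) (C' n) (M n) (fun k => Y k ω)).card : ℝ) < r := hω.trans_le hr1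
        exact_mod_cast this
      have hmono : μ.real (A n) ≤
          μ.real {ω | (hit2 (C n) (C' n) (M n) (fun k => Y k ω)).card < r} :=
        measureReal_mono hsub
      have t1 : (((M n).card : ℝ) + 1) ^ s * Real.exp (-(l * (((M n).card : ℝ) - s))) ≤
          1 / x ^ 2 := by
        apply term_le hx (Nat.cast_nonneg _) hm2 hs2
        have e1 : Vs * x ^ e = l * K := by
          rw [hVs, hl, mul_assoc, ← Real.rpow_add hx0]
          have : (-b - e + e : ℝ) = -b := by ring
          rw [this]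
          ring
        have e2 := p1 Vs (l * K) h14 e1.le
        have e3 : l * s ≤ l * (Vs + 1) := mul_le_mul_of_nonneg_left hs2 hl0
        rw [← hK, mul_sub]
        linarith
      have t2 : (((M n).card : ℝ) + 1) ^ r * Real.exp (-(l * ((s : ℝ) - r))) ≤ 1 / x ^ 2 := by
        apply term_le hx (Nat.cast_nonneg _) hm2 hr2
        have e1 : Vr * x ^ e = l * Vs := by
          rw [hVs, hVr, hl]
          have h1 : x ^ (-(2 * b) - 2 * e : ℝ) * x ^ e = x ^ (-b : ℝ) * x ^ (-b - e : ℝ) := by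
            rw [← Real.rpow_add hx0, ← Real.rpow_add hx0]
            congr 1
            ring
          calc K * x ^ (-(2 * b) - 2 * e : ℝ) * x ^ e = K * (x ^ (-(2 * b) - 2 * e : ℝ) * x ^ e) := by
                ring
            _ = K * (x ^ (-b : ℝ) * x ^ (-b - e : ℝ)) := by rw [h1]
            _ = _ := by ring
        have e2 := p1 Vr (l * Vs) h15 e1.le
        have e4 : l * Vs ≤ l * s := mul_le_mul_of_nonneg_left hs1 hl0
        have e3 : l * r ≤ l * (Vr + 1) := mul_le_mul_of_nonneg_left hr2 hl0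
        rw [mul_sub]
        linarith
      linarith
    · have : A n = ∅ := by
        rw [hA]
        ext ω
        simp [hodd]
      rw [this, measureReal_empty]
      positivity
  have hsum : Summable (fun n => μ.real (A n)) := by
    have hs2 : Summable (fun n : ℕ => 2 * (1 / (n : ℝ) ^ 2)) :=
      (Real.summable_one_div_nat_pow.mpr (by norm_num)).mul_left 2
    refine Summable.of_norm_bounded_eventually_nat hs2 ?_
    filter_upwards [hbound] with n hn
    rwa [Real.norm_eq_abs, abs_of_nonneg measureReal_nonneg]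
  have hfin : ∑' n, μ (A n) ≠ ⊤ := by
    have h1 := hsum.tsum_ofReal_ne_top
    have h2 : ∀ n, ENNReal.ofReal (μ.real (A n)) = μ (A n) := fun n => ofReal_measureReal
    simpa only [h2] using h1
  filter_upwards [ae_eventually_notMem hfin] with ω hω
  filter_upwards [hω] with n hn hodd
  by_contra hcon
  exact hn ⟨hodd, not_le.mp hcon⟩

end Pool.Agent.D0H76.PP
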