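import Pool.Agent.D0H23.PP.Stm2

set_option autoImplicit false

/-!
# Project PP, quantitative form, module SP2: the perturbation is sparse and short
-/

namespace Pool.Agent.D0H76.PP

open Finset Filter
open Pool.Agent.D0H23.PP

theorem kk2_pos {δ β : ℝ} (h1 : δ < 1) (hβ : 0 < β) : 0 < kk2 δ β := by
  unfold kk2
  apply lt_min
  · linarith
  · linarith

theorem aa2_le {δ β : ℝ} (h0 : 0 < δ) (h1 : δ < 1) (hβ : 0 < β) (u : ℕ) :
    ((aa2 δ β u : ℕ) : ℝ) ≤ (δ + kk2 δ β) * u + 2 := by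
  have hk := kk2_pos h1 hβ
  unfold aa2 bb
  push_cast
  have h2 := Nat.ceil_lt_add_one (show 0 ≤ δ * u by positivity)
  have h3 := Nat.floor_le (show 0 ≤ kk2 δ β * u by positivity)
  linarith

theorem floor_le_aa2 {δ β : ℝ} (h0 : 1 / 2 ≤ δ) (hβ : 0 < β) (hβ4 : β ≤ 1 / 4) (u : ℕ) :
    ⌊β * u⌋₊ ≤ aa2 δ β u := by
  unfold aa2 bb
  have h1 : ⌊β * u⌋₊ ≤ ⌈δ * (u : ℝ)⌉₊ := by
    have h2 : (⌊β * u⌋₊ : ℝ) ≤ β * u := Nat.floor_le (by positivity)
    have h3 := Nat.le_ceil (δ * (u : ℝ))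
    have h4 : β * u ≤ δ * (u : ℝ) := mul_le_mul_of_nonneg_right (by linarith) (Nat.cast_nonneg u)
    exact_mod_cast h2.trans (h4.trans h3)
  omega

/-- the number of primes before `k` in its interval increases -/
theorem rank_lt {a o k k' : ℕ} (hk : k.Prime) (ho : o ≤ k % 2 ^ a) (hlt : k < k')
    (hd : k / 2 ^ a = k' / 2 ^ a) :
    ((Ico (k - k % 2 ^ a + o) k).filter Nat.Prime).card <
      ((Ico (k' - k' % 2 ^ a + o) k').filter Nat.Prime).card := by
  have h1 := Nat.div_add_mod k (2 ^ a)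
  have h2 := Nat.div_add_mod k' (2 ^ a)
  have hI : k - k % 2 ^ a = k' - k' % 2 ^ a := by
    rw [← hd] at h2
    omega
  rw [← hI]
  apply card_lt_card
  rw [ssubset_iff_of_subset]
  · refine ⟨k, ?_, ?_⟩
    · rw [mem_filter, mem_Ico]
      refine ⟨⟨?_, hlt⟩, hk⟩
      have := Nat.mod_le k (2 ^ a)
      omega
    · rw [mem_filter, mem_Ico]
      omega
  · intro x hx
    rw [mem_filter, mem_Ico] at hx ⊢
    exact ⟨⟨hx.1.1, by omega⟩, hx.2⟩

/-- few numbers of small rank -/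
theorem few {a o c u : ℕ} (ha : a ≤ u) (S : Finset ℕ)
    (hS : ∀ k ∈ S, k < 2 ^ (u + 1) ∧ k.Prime ∧ o ≤ k % 2 ^ a ∧
      ((Ico (k - k % 2 ^ a + o) k).filter Nat.Prime).card < 2 ^ c) :
    S.card ≤ 2 ^ (u + 1 - a) * 2 ^ c := by
  rw [← card_range (2 ^ (u + 1 - a)), ← card_range (2 ^ c), ← card_product]
  apply card_le_card_of_injOn
    (fun k => (k / 2 ^ a, ((Ico (k - k % 2 ^ a + o) k).filter Nat.Prime).card))
  · intro k hk
    obtain ⟨h1, h2, h3, h4⟩ := hS k hk
    rw [mem_coe, mem_product, mem_range, mem_range]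
    refine ⟨?_, h4⟩
    simp only
    rw [Nat.div_lt_iff_lt_mul (by positivity), ← pow_add]
    have : u + 1 - a + a = u + 1 := by omega
    rw [this]
    exact h1
  · intro k hk k' hk' h
    simp only [Prod.mk.injEq] at h
    obtain ⟨-, h2, h3, -⟩ := hS k hk
    obtain ⟨-, h2', h3', -⟩ := hS k' hk'
    by_contra hne
    rcases lt_or_gt_of_ne hne with hl | hl
    · exact absurd h.2 (rank_lt h2 h3 hl h.1).ne
    · exact absurd h.2.symm (rank_lt h2' h3' hl h.1.symm).ne

/-- the number of the perturbed `k` with a given logarithm -/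
theorem fib2 (δ β : ℝ) (u : ℕ) (ha : aa2 δ β u ≤ u) (S : Finset ℕ)
    (hS : ∀ k ∈ S, A2 δ β k ∨ B2 δ β k) :
    (S.filter (fun k => Nat.log 2 k = u)).card ≤
      2 ^ (u + 1 - aa2 δ β u) * 2 ^ cc2 δ β u + 2 ^ (u + 1 - aa2 δ β u) * 2 ^ cc2 δ β u := by
  classical
  have hsub : S.filter (fun k => Nat.log 2 k = u) ⊆
      (S.filter (fun k => Nat.log 2 k = u ∧ A2 δ β k)) ∪
        (S.filter (fun k => Nat.log 2 k = u ∧ B2 δ β k)) := by
    intro k hk
    rw [mem_filter] at hk
    rw [mem_union, mem_filter, mem_filter]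
    rcases hS k hk.1 with h | h
    · exact Or.inl ⟨hk.1, hk.2, h⟩
    · exact Or.inr ⟨hk.1, hk.2, h⟩
  refine (card_le_card hsub).trans ((card_union_le _ _).trans (add_le_add ?_ ?_))
  · apply few (o := 0) ha
    intro k hk
    rw [mem_filter] at hk
    obtain ⟨-, hu, h⟩ := hk
    unfold A2 at h
    rw [hu] at h
    have h2 := Nat.lt_pow_succ_log_self (b := 2) (by norm_num) k
    rw [hu] at h2
    exact ⟨h2, h.1, Nat.zero_le _, h.2.2⟩
  · apply few (o := 2 ^ bb δ u) ha
    intro k hk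
    rw [mem_filter] at hk
    obtain ⟨-, hu, h⟩ := hk
    unfold B2 at h
    rw [hu] at h
    have h2 := Nat.lt_pow_succ_log_self (b := 2) (by norm_num) k
    rw [hu] at h2
    exact ⟨h2, h.1, h.2.1, h.2.2.2⟩

theorem t_SP2 : S_SP2 := by
  classical
  intro δ β h0 h1 hβ hβ4
  have he := kk2_pos h1 hβ
  obtain ⟨e, hed⟩ : ∃ e, e = kk2 δ β := ⟨_, rfl⟩
  rw [← hed] at he
  have he1 : e ≤ (1 - δ) / 4 := by rw [hed]; exact min_le_left _ _
  have he2 : e ≤ β / 2 := by rw [hed]; exact min_le_right _ _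
  obtain ⟨u₀, hu₀⟩ := exists_nat_ge (7 / e)
  have key : ∀ u : ℕ, u₀ ≤ u → (aa2 δ β u : ℝ) + 5 ≤ (1 - e / 2) * u := by
    intro u hu
    have h2 := aa2_le (by linarith) h1 hβ u
    rw [← hed] at h2
    have h3 : 7 / e ≤ (u : ℝ) := hu₀.trans (by exact_mod_cast hu)
    rw [div_le_iff₀ he] at h3
    have h4 : (δ + e) * u ≤ (1 - 3 * e) * u := by
      apply mul_le_mul_of_nonneg_right _ (Nat.cast_nonneg u)
      linarith
    nlinarith
  refine ⟨e / 2, by positivity, by linarith, u₀, ?_, ?_⟩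
  · intro k hk
    have hk1 : (1 : ℝ) ≤ k := by exact_mod_cast hk
    unfold HH2
    split_ifs with h
    · have h2 := key _ h.1
      have h3 : ((2 ^ Nat.log 2 k : ℕ) : ℝ) ≤ k := by
        exact_mod_cast Nat.pow_log_le_self 2 (by omega)
      push_cast at h3 ⊢
      calc (2 : ℝ) ^ (aa2 δ β (Nat.log 2 k) + 5)
          = (2 : ℝ) ^ (((aa2 δ β (Nat.log 2 k) + 5 : ℕ) : ℝ)) := (Real.rpow_natCast _ _).symm
        _ ≤ (2 : ℝ) ^ ((Nat.log 2 k : ℝ) * (1 - e / 2)) := by
            apply Real.rpow_le_rpow_of_exponent_le (by norm_num)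
            push_cast
            linarith
        _ = ((2 : ℝ) ^ (Nat.log 2 k)) ^ (1 - e / 2) := by
            rw [Real.rpow_mul (by norm_num), Real.rpow_natCast]
        _ ≤ (k : ℝ) ^ (1 - e / 2) := Real.rpow_le_rpow (by positivity) h3 (by linarith)
    · rw [Nat.cast_one]
      exact Real.one_le_rpow hk1 (by linarith)
  · -- the count
    intro b hb
    have hlog2 : 0 < Real.log 2 := Real.log_pos (by norm_num)
    obtain ⟨s, hs⟩ : ∃ s, s = (β - b) / 2 := ⟨_, rfl⟩
    have hs0 : 0 < s := by rw [hs]; linarith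
    have ev : ∀ᶠ X : ℕ in atTop, 8 * (1 / (s * Real.log 2) + 1) ≤ (X : ℝ) ^ s :=
      ((tendsto_rpow_atTop hs0).comp tendsto_natCast_atTop_atTop).eventually_ge_atTop _
    filter_upwards [ev, eventually_ge_atTop 1] with X hX hX1
    have hX1' : (1 : ℝ) ≤ X := by exact_mod_cast hX1
    have hX0 : (0 : ℝ) < X := by linarith
    obtain ⟨S, hSd⟩ : ∃ S, S = (range X).filter (fun k => HH2 δ β u₀ k ≠ 1) := ⟨_, rfl⟩
    rw [← hSd]
    have hSm : ∀ k ∈ S, k < X ∧ u₀ ≤ Nat.log 2 k ∧ (A2 δ β k ∨ B2 δ β k) := by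
      intro k hk
      rw [hSd, mem_filter, mem_range] at hk
      refine ⟨hk.1, ?_⟩
      by_contra h
      apply hk.2
      unfold HH2
      rw [if_neg h]
    have hmaps : ∀ k ∈ S, Nat.log 2 k ∈ range (Nat.log 2 X + 1) := by
      intro k hk
      rw [mem_range]
      have := Nat.log_mono_right (b := 2) (hSm k hk).1.le
      omega
    have hfib : ∀ u ∈ range (Nat.log 2 X + 1),
        ((S.filter (fun k => Nat.log 2 k = u)).card : ℝ) ≤ 8 * (X : ℝ) ^ (1 - β) := by
      intro u hu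
      rw [mem_range] at hu
      by_cases hu0 : u₀ ≤ u
      swap
      · have : S.filter (fun k => Nat.log 2 k = u) = ∅ := by
          apply filter_eq_empty_iff.mpr
          intro k hk hku
          exact hu0 (hku ▸ (hSm k hk).2.1)
        rw [this, card_empty, Nat.cast_zero]
        positivity
      have hk := key u hu0
      have hau : aa2 δ β u ≤ u := by
        have : ((aa2 δ β u : ℕ) : ℝ) ≤ u := by
          have : (0 : ℝ) ≤ u := Nat.cast_nonneg u
          nlinarith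
        exact_mod_cast this
      have h2 := fib2 δ β u hau S (fun k hk => (hSm k hk).2.2)
      have hfa := floor_le_aa2 h0 hβ hβ4 u
      have h3 : 2 ^ (u + 1 - aa2 δ β u) * 2 ^ cc2 δ β u + 2 ^ (u + 1 - aa2 δ β u) * 2 ^ cc2 δ β u =
          2 ^ (u + 2 - ⌊β * u⌋₊) := by
        rw [← pow_add, ← two_mul, ← pow_succ']
        congr 1
        unfold cc2
        omega
      rw [h3] at h2
      have h5 := Nat.lt_floor_add_one (β * (u : ℝ))
      have h6 : (2 : ℝ) ^ u ≤ X := by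
        have a1 : 2 ^ Nat.log 2 X ≤ X := Nat.pow_log_le_self 2 (by omega)
        have a2 : 2 ^ u ≤ 2 ^ Nat.log 2 X := Nat.pow_le_pow_right (by norm_num) (by omega)
        exact_mod_cast a2.trans a1
      calc ((S.filter (fun k => Nat.log 2 k = u)).card : ℝ)
          ≤ ((2 ^ (u + 2 - ⌊β * u⌋₊) : ℕ) : ℝ) := by exact_mod_cast h2
        _ = (2 : ℝ) ^ (((u + 2 - ⌊β * u⌋₊ : ℕ) : ℝ)) := by
            rw [Real.rpow_natCast]
            push_cast
            rfl
        _ ≤ (2 : ℝ) ^ ((3 : ℝ) + (u : ℝ) * (1 - β)) := by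
            apply Real.rpow_le_rpow_of_exponent_le (by norm_num)
            rw [Nat.cast_sub (by omega)]
            push_cast
            linarith
        _ = 8 * ((2 : ℝ) ^ u) ^ (1 - β) := by
            rw [Real.rpow_add (by norm_num), Real.rpow_mul (by norm_num), Real.rpow_natCast]
            norm_num
        _ ≤ 8 * (X : ℝ) ^ (1 - β) := by
            apply mul_le_mul_of_nonneg_left _ (by norm_num)
            exact Real.rpow_le_rpow (by positivity) h6 (by linarith)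
    have hcard : S.card = ∑ u ∈ range (Nat.log 2 X + 1), (S.filter (fun k => Nat.log 2 k = u)).card :=
      card_eq_sum_card_fiberwise hmaps
    have hlogX : (Nat.log 2 X : ℝ) ≤ (X : ℝ) ^ s / (s * Real.log 2) := by
      have a1 : ((2 ^ Nat.log 2 X : ℕ) : ℝ) ≤ X := by
        exact_mod_cast Nat.pow_log_le_self 2 (by omega)
      push_cast at a1
      have a2 := Real.log_le_log (by positivity) a1
      rw [Real.log_pow] at a2
      have a3 := Real.log_le_rpow_div hX0.le hs0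
      have a4 := a2.trans a3
      rw [le_div_iff₀ hs0] at a4
      rw [le_div_iff₀ (by positivity)]
      linarith
    have hXs : (1 : ℝ) ≤ (X : ℝ) ^ s := Real.one_le_rpow hX1' hs0.le
    have hXe : 0 < (X : ℝ) ^ (1 - β) := Real.rpow_pos_of_pos hX0 _
    calc (S.card : ℝ) = ∑ u ∈ range (Nat.log 2 X + 1),
          ((S.filter (fun k => Nat.log 2 k = u)).card : ℝ) := by
          rw [hcard]
          push_cast
          rfl
      _ ≤ ∑ u ∈ range (Nat.log 2 X + 1), 8 * (X : ℝ) ^ (1 - β) := sum_le_sum hfib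
      _ = ((Nat.log 2 X : ℝ) + 1) * (8 * (X : ℝ) ^ (1 - β)) := by
          rw [sum_const, card_range, nsmul_eq_mul]
          push_cast
          ring
      _ ≤ ((X : ℝ) ^ s / (s * Real.log 2) + (X : ℝ) ^ s) * (8 * (X : ℝ) ^ (1 - β)) := by
          apply mul_le_mul_of_nonneg_right _ (by positivity)
          linarith
      _ = (8 * (1 / (s * Real.log 2) + 1)) * (X : ℝ) ^ s * (X : ℝ) ^ (1 - β) := by ring
      _ ≤ (X : ℝ) ^ s * (X : ℝ) ^ s * (X : ℝ) ^ (1 - β) := by gcongr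
      _ = (X : ℝ) ^ (1 - b) := by
          rw [← Real.rpow_add hX0, ← Real.rpow_add hX0]
          congr 1
          rw [hs]
          ring

end Pool.Agent.D0H76.PP
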